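import Pool.Agent.Q37.FF.Indep

/-!
# F-fullness is m-adically stable (MP_c591d8_ag, Q1)

Definitions (`Pool/Agent/Q37/FF/Stmt.lean`, and `Pool/Agent/Q43/FC/Defs.lean`, `Exact.lean`):
`IsFFull p A` says that the ring `A` is local and that for every finite family `w` of elements of
`A` with radical of `(w)` the maximal ideal and every `i`, the module
`H^i_m(A) = cocycles w i / coboundaries w i` (the cohomology of the Cech complex of `w`) is generated
by the image of the Frobenius, which is induced by the `p`-th power on the components of the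
cochains.
-/

set_option autoImplicit false

namespace Pool.Agent.Results.MP_c591d8_ag.FFullStable

open IsLocalRing Q37.FF

universe u

/-- F-fullness is m-adically stable: let `R` be a Noetherian local ring of characteristic `p` and
`x` a non-zero-divisor in the maximal ideal `m` of `R` such that `R ⧸ (x)` is `F`-full. Then there
is `N` such that `R ⧸ (x + δ)` is `F`-full for all `δ ∈ m ^ N`. -/
theorem result {R : Type u} [CommRing R] [IsLocalRing R] [IsNoetherianRing R] (p : ℕ)
    [Fact p.Prime] [CharP R p] {x : R} (hx : x ∈ maximalIdeal R) (hx' : x ∈ nonZeroDivisors R)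
    (hfull : IsFFull p (R ⧸ Ideal.span {x})) :
    ∃ N : ℕ, ∀ δ ∈ maximalIdeal R ^ N, IsFFull p (R ⧸ Ideal.span {x + δ}) := by
  obtain ⟨hloc, hfull⟩ := hfull
  have hnz : ∀ a : R, x * a = 0 → a = 0 := fun a ha =>
    (mul_left_mem_nonZeroDivisors_eq_zero_iff hx').1 ha
  obtain ⟨d, wb, hwb⟩ := Submodule.fg_iff_exists_fin_generating_family.1
    (IsNoetherian.noetherian (maximalIdeal (R ⧸ Ideal.span {x})))
  have hwb' : (Ideal.span (Set.range wb)).radical = maximalIdeal (R ⧸ Ideal.span {x}) := by
    have h1 : Ideal.span (Set.range wb) = maximalIdeal (R ⧸ Ideal.span {x}) := hwb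
    rw [h1]
    exact (maximalIdeal.isMaximal (R ⧸ Ideal.span {x})).isPrime.radical
  obtain ⟨N, w, hw, hN⟩ := main p hx hnz hwb' (hfull d wb hwb')
  refine ⟨N, fun δ hδ => ?_⟩
  obtain ⟨hy, hF⟩ := hN δ hδ
  have hl : IsLocalRing (R ⧸ Ideal.span {x + δ}) := quot_local hy
  have hch : CharP (R ⧸ Ideal.span {x + δ}) p := quot_char p
  refine ⟨hl, fun e w' hw' => ?_⟩
  exact fullFor_indep p ((rad_quot hy hw).trans hw'.symm) hF

end Pool.Agent.Results.MP_c591d8_ag.FFullStable
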